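import Pool.Agent.Lib.KAnnih.Main

/-!
# `k`-annihilation games are solved in polynomial time, for every fixed `k`
-/

set_option autoImplicit false

namespace Pool.Agent.Results.MP_474c54_lc.PolyTimeSolution

open Pool.Agent.KAnnih

/-- For every fixed `k` there is a function which assigns to every finite digraph with a position on
it a correct answer (the outcome class and, in the classes `𝒩` and `𝒪`, an optimal next move), and
which is computed by a Turing machine in polynomial time. -/
theorem result (k : ℕ) :
    ∃ f : ∀ x : Inst, Answer x.n, (∀ x, Correct k x (f x)) ∧
      Nonempty (Turing.TM2ComputableInPolyTime encodeInst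
        (fun a : (Σ n : ℕ, Answer n) => encodeAnswer a.2) (fun x => ⟨x.n, f x⟩)) :=
  main_theorem k

end Pool.Agent.Results.MP_474c54_lc.PolyTimeSolution
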